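import Pool.Agent.COV.StmtsB

/-!
# COV, row AB2: Abel's theorem for Mumford vectors (MP_160b6c_nt)
-/

namespace Pool.Agent.COV.H6

open Polynomial Pool.Agent.KDT.Z

/-- a factor `X - a` of a divisor gives a zero -/
theorem ev0 {U : Type} [Field U] {A R : U[X]} {a b : U} (h : A = (X - C a) * (X - C b))
    (hd : A ∣ R) : R.eval a = 0 ∧ R.eval b = 0 := by
  obtain ⟨Q, hQ⟩ := hd
  rw [hQ, h]
  simp

theorem ab2 (h1 : AblStmt) (h2 : CmaStatement) : Ab2Stmt := by
  intro k U _ _ _ f g he d s q t hs hq ht hrr hro z w z' w' z'' w'' hz hz' hz''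
  have hgm : g.Monic := by rw [he.gm]; exact he.mo.map _
  have hg5 : g.natDegree = 5 := by
    rw [he.gm, Polynomial.natDegree_map]
    exact he.d5
  obtain ⟨c1, c2, _, c4, _⟩ := h2.2 U g q t hgm hg5 hq ht hrr
  obtain ⟨e1, e2, _⟩ := c4 hro
  have hl : l3 q t ≠ 0 := div_ne_zero hro hrr
  have hL : (lin q t).natDegree ≤ 3 := natDegree_cubic_le
  have hP : lin q t ^ 2 - g = C (l3 q t ^ 2) *
      ∏ i, (X - C ((![z.a, w.a, z'.a, w'.a, z''.a, w''.a] : Fin 6 → U) i)) := by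
    rw [e1, hz.1, hz'.1, hz''.1, Fin.prod_univ_six]
    simp only [Matrix.cons_val]
    ring
  have hA := h1 k U f g he d s _ (lin q t) (l3 q t) hs hl hL hP
  rw [Fin.sum_univ_six] at hA
  simp only [Matrix.cons_val] at hA
  obtain ⟨v1, v2⟩ := ev0 hz.1 c1
  obtain ⟨v3, v4⟩ := ev0 hz'.1 c2
  obtain ⟨v5, v6⟩ := ev0 hz''.1 e2
  rw [eval_sub, sub_eq_zero] at v1 v2 v3 v4
  rw [eval_add] at v5 v6
  rw [hz.2.1] at v1
  rw [hz.2.2] at v2
  rw [hz'.2.1] at v3
  rw [hz'.2.2] at v4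
  rw [hz''.2.1] at v5
  rw [hz''.2.2] at v6
  have v5' : (lin q t).eval z''.a = -z''.b := by
    linear_combination v5
  have v6' : (lin q t).eval w''.a = -w''.b := by
    linear_combination v6
  rw [v1, v2, v3, v4, v5', v6', div_neg, div_neg] at hA
  unfold om
  linear_combination hA

end Pool.Agent.COV.H6
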